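import Pool.Agent.U581.LB.SeqC
import Pool.Agent.U908.LD.TORC
import Pool.Agent.U251.LD.StmQ

/-!
# Project LDQ, package SEQ: the sequential form (port of `Pool/Agent/U581/LB/SeqA.lean`, `SeqB.lean`,
`SeqC.lean` by helper581 to the divisor problem, on the torus part of helper908)
-/

set_option autoImplicit false

namespace Pool.Agent.U908.LD.SQ56

open Real MeasureTheory Filter Topology ProbabilityTheory Pool.Agent.U581.BM Pool.Agent.U251.LD
open Pool.Agent.U581.LB (sf rt rt_sf sf_sqf blk Yq bq vq Y V u01 Th S_CLT S_FOUR S_TIGHT AdmL G S_MOM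
  S_SLU G_lin G_sub G_bound G_cont near' tay tay_even chr_tay expdiff)
open scoped BoundedContinuousFunction NNReal Nat

theorem G_cc (ρ u R : ℝ) (N : ℕ) : (UD N (R + ρ * u) - UD N R) / sg ρ = G (cc ρ u) N R := by
  unfold UD G cc
  rw [← Finset.sum_sub_distrib, Finset.sum_div]
  refine Finset.sum_congr rfl fun n _ => ?_
  have e : ((cd n / sg ρ : ℝ) : ℂ) * Complex.exp (((-(π / 4) : ℝ) : ℂ) * Complex.I) *
      (Complex.exp (((2 * π * (√n * (ρ * u)) : ℝ) : ℂ) * Complex.I) - 1) *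
      Complex.exp (((2 * π * (√n * R) : ℝ) : ℂ) * Complex.I) = ((cd n / sg ρ : ℝ) : ℂ) *
      (Complex.exp (((2 * π * ((R + ρ * u) * √n) - π / 4 : ℝ) : ℂ) * Complex.I) -
        Complex.exp (((2 * π * (R * √n) - π / 4 : ℝ) : ℂ) * Complex.I)) := by
    rw [mul_assoc, mul_assoc, sub_mul, one_mul, mul_sub, ← Complex.exp_add, ← Complex.exp_add,
      ← Complex.exp_add]
    congr 3
    · push_cast
      ring
    · push_cast
      ring
  rw [e, Complex.re_ofReal_mul, Complex.sub_re, Complex.exp_ofReal_mul_I_re,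
    Complex.exp_ofReal_mul_I_re]
  ring

theorem pathU_eq (ρ : ℝ) (M L : ℕ) (R : ℝ) :
    pathU ρ M L R = polygon M fun i => G (cc ρ (i / M)) (L ^ 2) R := by
  unfold pathU
  simp_rw [G_cc]

theorem Dom.mono {c : ℕ → ℂ} {A g h h' : ℝ} (D : Dom c A g h) (h0 : 0 ≤ h) (hh : h ≤ h') :
    Dom c A g h' := by
  refine ⟨fun n => (D.sq n).trans ?_⟩
  have := min_mono2 (n := n) h0 hh
  gcongr

/-! ## The variance -/

theorem VAR_lim (hVARQ : S_VARQ) {ρ : ℕ → ℝ} {N : ℕ → ℕ} (hρ : ∀ j, 0 < ρ j ∧ ρ j < 1)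
    (hρ0 : Tendsto ρ atTop (𝓝 0)) (hN : ∀ᶠ j in atTop, ρ j ^ (-4 : ℝ) ≤ N j) (a b : ℕ)
    (ha : 0 < a) (hab : a ≤ b) :
    Tendsto (fun j => Rf (ρ j) (N j) ((a : ℝ) / b)) atTop (𝓝 ((a : ℝ) / b)) := by
  have ha' : (0 : ℝ) < a := by exact_mod_cast ha
  have hb' : (0 : ℝ) < b := by exact_mod_cast (lt_of_lt_of_le ha hab)
  obtain ⟨r, hr⟩ : ∃ r : ℝ, r = (a : ℝ) / b := ⟨_, rfl⟩
  have hr0 : 0 < r := by rw [hr]; positivity
  have hr1 : r ≤ 1 := by
    rw [hr, div_le_one hb']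
    exact_mod_cast hab
  rw [← hr]
  have hlog : Tendsto (fun j => log (1 / ρ j)) atTop atTop := by
    have h1 : Tendsto (fun j => 1 / ρ j) atTop atTop := by
      simp_rw [one_div]
      refine Tendsto.inv_tendsto_nhdsGT_zero ?_
      rw [tendsto_nhdsWithin_iff]
      exact ⟨hρ0, Eventually.of_forall fun j => (hρ j).1⟩
    exact Real.tendsto_log_atTop.comp h1
  -- the main term
  have hq : Tendsto (fun j => (ρ j * r * log (1 / (ρ j * r)) ^ 3) / (ρ j * log (1 / ρ j) ^ 3)) atTop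
      (𝓝 r) := by
    have h1 : Tendsto (fun j => r * (1 + log (1 / r) / log (1 / ρ j)) ^ 3) atTop
        (𝓝 (r * (1 + 0) ^ 3)) := by
      refine Tendsto.const_mul _ (Tendsto.pow (Tendsto.const_add _ ?_) 3)
      exact Tendsto.const_div_atTop hlog _
    rw [add_zero, one_pow, mul_one] at h1
    refine h1.congr' ?_
    refine Eventually.of_forall fun j => ?_
    have hp := (hρ j).1
    have hl := log_inv_pos (hρ j).1 (hρ j).2
    have e1 : log (1 / (ρ j * r)) = log (1 / ρ j) + log (1 / r) := by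
      rw [← Real.log_mul (by positivity) (by positivity)]
      congr 1
      field_simp
    show r * (1 + log (1 / r) / log (1 / ρ j)) ^ 3 =
      ρ j * r * log (1 / (ρ j * r)) ^ 3 / (ρ j * log (1 / ρ j) ^ 3)
    rw [e1]
    field_simp
  rw [Metric.tendsto_atTop] at hq ⊢
  intro ε hε
  obtain ⟨g, hgd⟩ : ∃ g : ℝ, g = 8 / π ^ 2 := ⟨_, rfl⟩
  have hg0 : 0 < g := by rw [hgd]; positivity
  obtain ⟨e, he, he1⟩ : ∃ e : ℝ, 0 < e ∧ e / g * (1 + ε) ≤ ε / 4 := by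
    refine ⟨g * ε / (4 * (1 + ε)), by positivity, le_of_eq ?_⟩
    field_simp
  obtain ⟨h0, hh0, -, hV⟩ := hVARQ e he
  rw [← hgd] at hV
  obtain ⟨j1, hj1⟩ := hq (min 1 (ε / 2) / 1) (by positivity)
  have ev1 : ∀ᶠ j in atTop, ρ j < h0 := hρ0.eventually (gt_mem_nhds hh0)
  have ev2 : ∀ᶠ j in atTop, ρ j < r ^ 3 := hρ0.eventually (gt_mem_nhds (by positivity))
  obtain ⟨j2, hj2⟩ := eventually_atTop.1 (ev1.and (ev2.and hN))
  refine ⟨max j1 j2, fun j hj => ?_⟩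
  have g1 := hj1 j ((le_max_left _ _).trans hj)
  obtain ⟨g2, g3, g4⟩ := hj2 j ((le_max_right _ _).trans hj)
  have hp := (hρ j).1
  have hl := log_inv_pos (hρ j).1 (hρ j).2
  obtain ⟨q, hqd⟩ : ∃ q, q = (ρ j * r * log (1 / (ρ j * r)) ^ 3) / (ρ j * log (1 / ρ j) ^ 3) :=
    ⟨_, rfl⟩
  rw [← hqd, Real.dist_eq] at g1
  have g1a : |q - r| < 1 := lt_of_lt_of_le g1 (by rw [div_one]; exact min_le_left _ _)
  have g1b : |q - r| < ε / 2 := lt_of_lt_of_le g1 (by rw [div_one]; exact min_le_right _ _)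
  have hh : ρ j * r ≤ h0 := by nlinarith
  have hNj : (ρ j * r) ^ (-3 : ℝ) ≤ N j := by
    refine le_trans ?_ g4
    rw [Real.mul_rpow hp.le hr0.le]
    have e1 : r ^ (-3 : ℝ) ≤ (ρ j) ^ (-1 : ℝ) := by
      rw [Real.rpow_neg hr0.le, Real.rpow_neg hp.le, Real.rpow_one]
      apply inv_anti₀ hp
      have : r ^ (3 : ℝ) = r ^ 3 := by
        rw [← Real.rpow_natCast]; norm_num
      rw [this]
      exact g3.le
    calc ρ j ^ (-3 : ℝ) * r ^ (-3 : ℝ) ≤ ρ j ^ (-3 : ℝ) * (ρ j) ^ (-1 : ℝ) :=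
          mul_le_mul_of_nonneg_left e1 (by positivity)
      _ = ρ j ^ (-4 : ℝ) := by
          rw [← Real.rpow_add hp]
          norm_num
  have k1 := hV (ρ j * r) (by positivity) hh (N j) hNj
  have k2 : Rf (ρ j) (N j) r - q = (∑ n ∈ Finset.Icc 1 (N j), cd n ^ 2 *
      (1 - cos (2 * π * (√n * (ρ j * r)))) - g * (ρ j * r * log (1 / (ρ j * r)) ^ 3)) /
        (g * (ρ j * log (1 / ρ j) ^ 3)) := by
    have e : q = g * (ρ j * r * log (1 / (ρ j * r)) ^ 3) / (g * (ρ j * log (1 / ρ j) ^ 3)) := by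
      rw [hqd, mul_div_mul_left _ _ hg0.ne']
    rw [e, sub_div]
    unfold Rf
    rw [sg_sq (hρ j).1 (hρ j).2, ← hgd]
  have k3 : |Rf (ρ j) (N j) r - q| ≤ e / g * q := by
    rw [k2, abs_div, abs_of_pos (show 0 < g * (ρ j * log (1 / ρ j) ^ 3) by positivity),
      div_le_iff₀ (by positivity)]
    refine k1.trans (le_of_eq ?_)
    have e : q * (ρ j * log (1 / ρ j) ^ 3) = ρ j * r * log (1 / (ρ j * r)) ^ 3 := by
      rw [hqd, div_mul_cancel₀]
      positivity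
    rw [← e]
    field_simp
  have hq2 : q ≤ 1 + ε := by have := (abs_lt.1 g1b).2; linarith
  have k4 : e / g * q ≤ e / g * (1 + ε) := mul_le_mul_of_nonneg_left hq2 (by positivity)
  rw [Real.dist_eq]
  have k5 : |Rf (ρ j) (N j) r - r| ≤ |Rf (ρ j) (N j) r - q| + |q - r| := abs_sub_le _ _ _
  linarith


/-- the sequences under consideration -/
structure Seq (c₁ c₂ K s : ℝ) (T ρ : ℕ → ℝ) (N : ℕ → ℕ) (μ : ℕ → Measure ℝ) : Prop where
  adm : ∀ j, AdmL c₁ c₂ K s (T j) (μ j)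
  s0 : 1 / 3 < s
  T1 : ∀ j, 1 < T j
  Tl : Tendsto T atTop atTop
  r01 : ∀ j, 0 < ρ j ∧ ρ j < 1
  r0 : Tendsto ρ atTop (𝓝 0)
  N1 : ∀ j, 1 ≤ N j
  Ns : ∀ δ : ℝ, 0 < δ → ∀ᶠ j in atTop, (N j : ℝ) ≤ T j ^ δ
  Nr : ∀ᶠ j in atTop, ρ j ^ (-4 : ℝ) ≤ N j

theorem ev_const {T : ℕ → ℝ} (Tl : Tendsto T atTop atTop) (D : ℝ) {δ : ℝ} (hδ : 0 < δ) :
    ∀ᶠ j in atTop, D ≤ T j ^ δ :=
  ((tendsto_rpow_atTop hδ).comp Tl).eventually (eventually_ge_atTop D)

theorem ev_log {ρ : ℕ → ℝ} (hρ : ∀ j, 0 < ρ j ∧ ρ j < 1) (hρ0 : Tendsto ρ atTop (𝓝 0)) :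
    ∀ᶠ j in atTop, 1 ≤ log (1 / ρ j) := by
  have h1 : ∀ᶠ j in atTop, ρ j < exp (-1) := hρ0.eventually (gt_mem_nhds (by positivity))
  filter_upwards [h1] with j hj
  rw [one_div, Real.log_inv]
  have := Real.log_lt_log (hρ j).1 hj
  rw [Real.log_exp] at this
  linarith

theorem l1_bound (hUP : S_UP) (A : ℝ) : ∃ V0 : ℝ, 1 ≤ V0 ∧ ∀ (ρ : ℝ) (N : ℕ) (c : ℕ → ℂ),
    0 < ρ → ρ < 1 → 1 ≤ log (1 / ρ) → Dom c A (sg ρ) ρ →
    (∑ n ∈ Finset.Icc 1 N, ‖c n‖) ^ 2 ≤ V0 * N ∧ V c N ≤ V0 := by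
  obtain ⟨C, hC, -, hU⟩ := hUP
  refine ⟨2 * π ^ 2 * (A ^ 2 * C) + 1, by
    have : 0 ≤ 2 * π ^ 2 * (A ^ 2 * C) := by positivity
    linarith, ?_⟩
  intro ρ N c h0 h1 hL D
  have hV := D.V N
  have hu := hU N ρ h0 h1.le
  have hg := sg_pos h0 h1
  have hlp : 0 < log (1 / ρ) := by linarith
  have k1 : (A / sg ρ) ^ 2 * ∑ n ∈ Finset.Icc 1 N, cd n ^ 2 * min 2 (2 * π ^ 2 * (n * ρ ^ 2)) ≤
      π ^ 2 * (A ^ 2 * C) := by
    calc (A / sg ρ) ^ 2 * ∑ n ∈ Finset.Icc 1 N, cd n ^ 2 * min 2 (2 * π ^ 2 * (n * ρ ^ 2))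
        ≤ (A / sg ρ) ^ 2 * (C * (ρ * (1 + log (1 / ρ)) ^ 3)) :=
          mul_le_mul_of_nonneg_left hu (by positivity)
      _ ≤ (A / sg ρ) ^ 2 * (C * (ρ * (2 * log (1 / ρ)) ^ 3)) := by
          apply mul_le_mul_of_nonneg_left _ (by positivity)
          apply mul_le_mul_of_nonneg_left _ hC.le
          apply mul_le_mul_of_nonneg_left _ h0.le
          exact pow_le_pow_left₀ (by linarith) (by linarith) 3
      _ = π ^ 2 * (A ^ 2 * C) := by
          rw [div_pow, sg_sq h0 h1]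
          have : log (1 / ρ) ≠ 0 := by linarith
          have := Real.pi_pos.ne'
          field_simp
          ring
  have k2 : V c N ≤ π ^ 2 * (A ^ 2 * C) := hV.trans k1
  have hAC : 0 ≤ π ^ 2 * (A ^ 2 * C) := by positivity
  refine ⟨?_, by linarith⟩
  have k3 : (∑ n ∈ Finset.Icc 1 N, ‖c n‖) ^ 2 ≤ N * ∑ n ∈ Finset.Icc 1 N, ‖c n‖ ^ 2 := by
    have := sq_sum_le_card_mul_sum_sq (s := Finset.Icc 1 N) (f := fun n => ‖c n‖)
    rwa [Nat.card_Icc, Nat.add_sub_cancel] at this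
  have k4 : ∑ n ∈ Finset.Icc 1 N, ‖c n‖ ^ 2 = 2 * V c N := by
    unfold V
    ring
  rw [k4] at k3
  have hN : (0 : ℝ) ≤ N := Nat.cast_nonneg _
  nlinarith

section

variable {c₁ c₂ K s : ℝ} {T ρ : ℕ → ℝ} {N : ℕ → ℕ} {μ : ℕ → Measure ℝ}

theorem Seq.K0 (S : Seq c₁ c₂ K s T ρ N μ) : 0 ≤ K := by
  have h1 := S.T1 0
  have h2 := (S.adm 0).dec (T 0) (by
    rw [abs_of_pos (by linarith)]
    calc T 0 ^ (1 / 10 : ℝ) ≤ T 0 ^ (1 : ℝ) := Real.rpow_le_rpow_of_exponent_le h1.le (by norm_num)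
      _ = T 0 := Real.rpow_one _) (by
    rw [abs_of_pos (by linarith)]
    nlinarith)
  have h3 : 0 ≤ K * |T 0| ^ (-s) := (norm_nonneg _).trans h2
  by_contra h
  push Not at h
  have h4 : 0 < |T 0| ^ (-s) := Real.rpow_pos_of_pos (abs_pos.2 (by linarith)) _
  nlinarith

theorem Seq.mom (S : Seq c₁ c₂ K s T ρ N μ) (hMOM : S_MOM) (hUP : S_UP) (A : ℝ) {k : ℕ}
    (hk : 1 ≤ k) : ∀ᶠ j in atTop, ∀ c : ℕ → ℂ, Dom c A (sg (ρ j)) (ρ j) →
    |∫ x, G c (N j) (T j * x) ^ k ∂μ j - ∫ θ, Y c (N j) θ ^ k ∂Th| ≤ T j ^ (-(s / 20)) := by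
  obtain ⟨V0, hV0, hV⟩ := l1_bound hUP A
  have hs := S.s0
  have hk' : (1 : ℝ) ≤ k := by exact_mod_cast hk
  have hK := S.K0
  obtain ⟨E, hE⟩ : ∃ E : ℕ, E = 2 ^ k := ⟨_, rfl⟩
  have hE1 : (1 : ℝ) ≤ E := by
    rw [hE]
    exact_mod_cast Nat.one_le_two_pow
  filter_upwards [ev_log S.r01 S.r0, S.Ns (1 / (4 * E)) (by positivity),
    ev_const S.Tl ((k : ℝ) ^ E) (δ := 1 / 2) (by norm_num), S.Ns (1 / 2) (by norm_num),
    ev_const S.Tl (2 * π * k) (δ := 1 / 2) (by norm_num), S.Ns (s / (40 * k)) (by positivity),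
    ev_const S.Tl (K * V0 ^ k) (δ := s / 40) (by positivity)] with j g0 g1 g2 g3 g4 g5 g6
  intro c D
  have hT1 := S.T1 j
  have hT0 : 0 < T j := by linarith
  have hN1 : (1 : ℝ) ≤ N j := by exact_mod_cast S.N1 j
  have hN0 : (0 : ℝ) ≤ N j := by linarith
  have p1 : ((k : ℝ) * N j) ^ E ≤ T j ^ (3 / 4 : ℝ) := by
    rw [mul_pow]
    have : (N j : ℝ) ^ E ≤ T j ^ (1 / 4 : ℝ) := by
      calc (N j : ℝ) ^ E ≤ (T j ^ (1 / (4 * E) : ℝ)) ^ E := pow_le_pow_left₀ hN0 g1 _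
        _ = T j ^ (1 / 4 : ℝ) := by
            rw [← Real.rpow_natCast, ← Real.rpow_mul hT0.le]
            congr 1
            field_simp
    calc (k : ℝ) ^ E * (N j : ℝ) ^ E ≤ T j ^ (1 / 2 : ℝ) * T j ^ (1 / 4 : ℝ) := by gcongr
      _ = T j ^ (3 / 4 : ℝ) := by
          rw [← Real.rpow_add hT0]
          norm_num
  have c1 : T j ^ (1 / 10 : ℝ) ≤ 2 * π * T j / ((k : ℝ) * N j) ^ (2 ^ k) := by
    rw [← hE, le_div_iff₀ (by positivity)]
    calc T j ^ (1 / 10 : ℝ) * ((k : ℝ) * N j) ^ E ≤ T j ^ (1 / 10 : ℝ) * T j ^ (3 / 4 : ℝ) := by gcongr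
      _ = T j ^ (17 / 20 : ℝ) := by
          rw [← Real.rpow_add hT0]
          norm_num
      _ ≤ T j ^ (1 : ℝ) := Real.rpow_le_rpow_of_exponent_le hT1.le (by norm_num)
      _ = T j := Real.rpow_one _
      _ ≤ 2 * π * T j := by nlinarith [Real.pi_gt_three]
  have c2 : 2 * π * ((k : ℝ) * N j) * T j ≤ T j ^ 2 := by
    have h1 : 2 * π * k * N j ≤ T j := by
      calc 2 * π * k * N j ≤ T j ^ (1 / 2 : ℝ) * T j ^ (1 / 2 : ℝ) := by gcongr
        _ = T j := by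
            rw [← Real.rpow_add hT0]
            norm_num
    calc 2 * π * ((k : ℝ) * N j) * T j = (2 * π * k * N j) * T j := by ring
      _ ≤ T j * T j := mul_le_mul_of_nonneg_right h1 hT0.le
      _ = T j ^ 2 := by ring
  refine (hMOM c₁ c₂ K s (T j) (μ j) (S.adm j) hK (by linarith) hT1.le k (N j) hk (S.N1 j) c1 c2
    c).trans ?_
  obtain ⟨hl, -⟩ := hV (ρ j) (N j) c (S.r01 j).1 (S.r01 j).2 g0 D
  have hl1 : ∑ n ∈ Finset.Icc 1 (N j), ‖c n‖ ≤ V0 * N j := by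
    have h1 : (∑ n ∈ Finset.Icc 1 (N j), ‖c n‖) ^ 2 ≤ (V0 * N j) ^ 2 := by
      refine hl.trans ?_
      have : 1 ≤ V0 * N j := by nlinarith
      nlinarith
    exact le_of_sq_le_sq h1 (by positivity)
  have hl2 : (∑ n ∈ Finset.Icc 1 (N j), ‖c n‖) ^ k ≤ V0 ^ k * T j ^ (s / 40) := by
    calc (∑ n ∈ Finset.Icc 1 (N j), ‖c n‖) ^ k ≤ (V0 * N j) ^ k :=
          pow_le_pow_left₀ (Finset.sum_nonneg fun _ _ => norm_nonneg _) hl1 k
      _ = V0 ^ k * (N j : ℝ) ^ k := mul_pow _ _ _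
      _ ≤ V0 ^ k * (T j ^ (s / (40 * k))) ^ k := by gcongr
      _ = V0 ^ k * T j ^ (s / 40) := by
          rw [← Real.rpow_natCast (T j ^ (s / (40 * k))), ← Real.rpow_mul hT0.le]
          congr 2
          field_simp
  calc K * T j ^ (-(s / 10)) * (∑ n ∈ Finset.Icc 1 (N j), ‖c n‖) ^ k
      ≤ K * T j ^ (-(s / 10)) * (V0 ^ k * T j ^ (s / 40)) :=
        mul_le_mul_of_nonneg_left hl2 (by positivity)
    _ = (K * V0 ^ k) * (T j ^ (-(s / 10)) * T j ^ (s / 40)) := by ring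
    _ ≤ T j ^ (s / 40) * (T j ^ (-(s / 10)) * T j ^ (s / 40)) := by gcongr
    _ = T j ^ (-(s / 20)) := by
        rw [← Real.rpow_add hT0, ← Real.rpow_add hT0]
        congr 1
        ring

theorem Seq.chr (S : Seq c₁ c₂ K s T ρ N μ) (hMOM : S_MOM) (hUP : S_UP) (hMB : S_MB)
    (hFOUR : S_FOUR) {A : ℝ} (hA : 0 ≤ A) {η : ℝ} (hη : 0 < η) :
    ∀ᶠ j in atTop, ∀ c : ℕ → ℂ, Dom c A (sg (ρ j)) (ρ j) →
    ‖∫ x, Complex.exp (((G c (N j) (T j * x) : ℝ) : ℂ) * Complex.I) ∂μ j -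
      ∫ θ, Complex.exp (((Y c (N j) θ : ℝ) : ℂ) * Complex.I) ∂Th‖ ≤ η := by
  obtain ⟨C, hC, hm⟩ := hMB A hA
  obtain ⟨m, hm1, hmη⟩ : ∃ m : ℕ, 1 ≤ m ∧ 2 * C / 4 ^ m ≤ η / 2 := by
    have h1 : Tendsto (fun m : ℕ => 2 * C * (1 / 4 : ℝ) ^ m) atTop (𝓝 (2 * C * 0)) :=
      (tendsto_pow_atTop_nhds_zero_of_lt_one (by norm_num) (by norm_num)).const_mul _
    rw [mul_zero] at h1
    obtain ⟨m, h2, h3⟩ := ((h1.eventually (gt_mem_nhds (half_pos hη))).and
      (eventually_ge_atTop 1)).exists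
    refine ⟨m, h3, ?_⟩
    rw [one_div, inv_pow, ← div_eq_mul_inv] at h2
    exact h2.le
  obtain ⟨ρ₀, hρ₀, hb⟩ := hm m
  have ev1 : ∀ᶠ j in atTop, ρ j < ρ₀ := S.r0.eventually (gt_mem_nhds hρ₀)
  have hs := S.s0
  have ev2 : ∀ᶠ j in atTop, (2 * m + 1 : ℝ) * T j ^ (-(s / 20)) < η / 2 := by
    have h1 : Tendsto (fun j => (2 * m + 1 : ℝ) * T j ^ (-(s / 20))) atTop
        (𝓝 ((2 * m + 1 : ℝ) * 0)) :=
      ((tendsto_rpow_neg_atTop (by linarith)).comp S.Tl).const_mul _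
    rw [mul_zero] at h1
    exact h1.eventually (gt_mem_nhds (half_pos hη))
  have ev3 : ∀ᶠ j in atTop, ∀ k ∈ Finset.Icc 1 (2 * m), ∀ c : ℕ → ℂ, Dom c A (sg (ρ j)) (ρ j) →
      |∫ x, G c (N j) (T j * x) ^ k ∂μ j - ∫ θ, Y c (N j) θ ^ k ∂Th| ≤ T j ^ (-(s / 20)) := by
    rw [Finset.eventually_all]
    intro k hk
    exact S.mom hMOM hUP A (Finset.mem_Icc.1 hk).1
  filter_upwards [ev1, ev2, ev3] with j g1 g2 g3
  intro c D
  have hP : IsProbabilityMeasure (μ j) := (S.adm j).prob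
  have hT1 := S.T1 j
  have hT0 : 0 < T j := by linarith
  obtain ⟨t, ht⟩ : ∃ t, t = T j ^ (-(s / 20)) := ⟨_, rfl⟩
  have ht0 : 0 < t := by rw [ht]; positivity
  rw [← ht] at g2 g3
  have a1 := chr_tay (P := μ j) (g := fun x => G c (N j) (T j * x))
    ((G_cont c (N j)).measurable.comp (measurable_const_mul (T j))) (fun x => G_bound c (N j) _) m
  have a2 := chr_tay (P := Th) (g := Y c (N j)) (hFOUR c (N j)).1 (fun x => Y_bound c (N j) _) m
  have a3 := hb (ρ j) (S.r01 j).1 g1.le c (N j) ⟨D.sq⟩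
  obtain ⟨g, hg⟩ : ∃ g : ℕ → ℝ, g = fun k => ∫ x, G c (N j) (T j * x) ^ k ∂μ j := ⟨_, rfl⟩
  obtain ⟨y, hy⟩ : ∃ y : ℕ → ℝ, y = fun k => ∫ θ, Y c (N j) θ ^ k ∂Th := ⟨_, rfl⟩
  have hgy : ∀ k ∈ Finset.range (2 * m), |g k - y k| ≤ t := by
    intro k hk
    rcases Nat.eq_zero_or_pos k with h | h
    · subst h
      rw [hg, hy]
      simp [ht0.le]
    · rw [hg, hy]
      exact g3 k (Finset.mem_Icc.2 ⟨h, (Finset.mem_range.1 hk).le⟩) c D
  have hgy2 : |g (2 * m) - y (2 * m)| ≤ t := by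
    rw [hg, hy]
    exact g3 (2 * m) (Finset.mem_Icc.2 ⟨by omega, le_rfl⟩) c D
  have hF : (1 : ℝ) ≤ ((2 * m)! : ℝ) := by exact_mod_cast Nat.one_le_iff_ne_zero.2 (Nat.factorial_ne_zero _)
  have a3' : y (2 * m) / ((2 * m)! : ℝ) ≤ C / 4 ^ m := by
    rw [div_le_iff₀ (by positivity), hy]
    calc ∫ θ, Y c (N j) θ ^ (2 * m) ∂Th ≤ C * ((2 * m)! : ℝ) / 4 ^ m := a3
      _ = C / 4 ^ m * ((2 * m)! : ℝ) := by ring
  have a4 : g (2 * m) / ((2 * m)! : ℝ) ≤ C / 4 ^ m + t := by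
    have h1 : g (2 * m) ≤ y (2 * m) + t := by have := (abs_le.1 hgy2).2; linarith
    calc g (2 * m) / ((2 * m)! : ℝ) ≤ (y (2 * m) + t) / ((2 * m)! : ℝ) := by gcongr
      _ = y (2 * m) / ((2 * m)! : ℝ) + t / ((2 * m)! : ℝ) := add_div _ _ _
      _ ≤ C / 4 ^ m + t := add_le_add a3' (div_le_self ht0.le hF)
  have a5 : ‖∑ k ∈ Finset.range (2 * m), Complex.I ^ k / (k ! : ℂ) * ((g k : ℝ) : ℂ) -
      ∑ k ∈ Finset.range (2 * m), Complex.I ^ k / (k ! : ℂ) * ((y k : ℝ) : ℂ)‖ ≤ 2 * m * t := by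
    rw [← Finset.sum_sub_distrib]
    have h1 : ∀ k ∈ Finset.range (2 * m), ‖Complex.I ^ k / (k ! : ℂ) * ((g k : ℝ) : ℂ) -
        Complex.I ^ k / (k ! : ℂ) * ((y k : ℝ) : ℂ)‖ ≤ t := by
      intro k hk
      rw [← mul_sub, norm_mul, norm_div, norm_pow, Complex.norm_I, one_pow, ← Complex.ofReal_sub,
        Complex.norm_real, Complex.norm_natCast, Real.norm_eq_abs]
      have h2 : (1 : ℝ) ≤ (k ! : ℝ) := by
        exact_mod_cast Nat.one_le_iff_ne_zero.2 (Nat.factorial_ne_zero _)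
      have h3 : (1 : ℝ) / (k ! : ℝ) ≤ 1 := by
        rw [div_le_one (by linarith)]
        exact h2
      calc 1 / (k ! : ℝ) * |g k - y k| ≤ 1 * t :=
            mul_le_mul h3 (hgy k hk) (abs_nonneg _) (by norm_num)
        _ = t := one_mul t
    refine (norm_sum_le _ _).trans ((Finset.sum_le_sum h1).trans (le_of_eq ?_))
    rw [Finset.sum_const, Finset.card_range, nsmul_eq_mul]
    push_cast
    ring
  have a6 : 2 * C / 4 ^ m = C / 4 ^ m + C / 4 ^ m := by ring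
  rw [hg] at a5 a4
  rw [hy] at a5 a3'
  have a7 := norm_sub_le_norm_sub_add_norm_sub
    (∫ x, Complex.exp (((G c (N j) (T j * x) : ℝ) : ℂ) * Complex.I) ∂μ j)
    (∑ k ∈ Finset.range (2 * m), Complex.I ^ k / (k ! : ℂ) *
      ((∫ x, G c (N j) (T j * x) ^ k ∂μ j : ℝ) : ℂ))
    (∫ θ, Complex.exp (((Y c (N j) θ : ℝ) : ℂ) * Complex.I) ∂Th)
  have a8 := norm_sub_le_norm_sub_add_norm_sub
    (∑ k ∈ Finset.range (2 * m), Complex.I ^ k / (k ! : ℂ) *
      ((∫ x, G c (N j) (T j * x) ^ k ∂μ j : ℝ) : ℂ))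
    (∑ k ∈ Finset.range (2 * m), Complex.I ^ k / (k ! : ℂ) *
      ((∫ θ, Y c (N j) θ ^ k ∂Th : ℝ) : ℂ))
    (∫ θ, Complex.exp (((Y c (N j) θ : ℝ) : ℂ) * Complex.I) ∂Th)
  rw [norm_sub_rev (∑ k ∈ Finset.range (2 * m), Complex.I ^ k / (k ! : ℂ) *
      ((∫ θ, Y c (N j) θ ^ k ∂Th : ℝ) : ℂ))] at a8
  have e9 : (2 * m + 1 : ℝ) * t = 2 * m * t + t := by ring
  linarith

/-- fourth moments of increments -/
theorem Seq.four (S : Seq c₁ c₂ K s T ρ N μ) (hMOM : S_MOM) (hUP : S_UP) {K4 : ℝ}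
    (hfour : ∀ (ρ u v : ℝ) (N : ℕ), 0 < ρ → ρ < 1 → 1 ≤ log (1 / ρ) → u ≤ v → v ≤ u + 1 →
      ∫ θ, (Y (cc ρ v) N θ - Y (cc ρ u) N θ) ^ 4 ∂Th ≤ K4 * (v - u) ^ (3 / 2 : ℝ)) :
    ∀ᶠ j in atTop, ∀ u v : ℝ, 0 ≤ u → u ≤ v → v ≤ 1 →
    ∫ x, (G (cc (ρ j) v) (N j) (T j * x) - G (cc (ρ j) u) (N j) (T j * x)) ^ 4 ∂μ j ≤
      K4 * (v - u) ^ (3 / 2 : ℝ) + T j ^ (-(s / 20)) := by
  filter_upwards [S.mom hMOM hUP 1 (k := 4) (by norm_num), ev_log S.r01 S.r0] with j g1 g2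
  intro u v hu huv hv
  have hr := S.r01 j
  have D : Dom (fun n => cc (ρ j) v n - cc (ρ j) u n) 1 (sg (ρ j)) (ρ j) := by
    refine Dom.mono dom_sub (mul_nonneg hr.1.le (by linarith)) ?_
    nlinarith [hr.1]
  have h1 := g1 _ D
  simp_rw [G_sub, Y_sub] at h1
  have h2 := hfour (ρ j) u v (N j) hr.1 hr.2 g2 huv (by linarith)
  have := (abs_le.1 h1).2
  linarith

end


theorem Rf_lim' {ρ : ℕ → ℝ} {L : ℕ → ℕ}
    (hV : ∀ a b : ℕ, 0 < a → a ≤ b → Tendsto (fun j => Rf (ρ j) (L j) ((a : ℝ) / b)) atTop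
      (𝓝 ((a : ℝ) / b))) (N : ℕ) {i k : ℕ} (hi : i ≤ N) (hk : k ≤ N) :
    Tendsto (fun j => Rf (ρ j) (L j) (((pt N i : unitInterval) : ℝ) - (pt N k : unitInterval)))
      atTop (𝓝 |((pt N i : unitInterval) : ℝ) - (pt N k : unitInterval)|) := by
  rcases Nat.eq_zero_or_pos N with h0 | h0
  · have hi' : i = 0 := by omega
    have hk' : k = 0 := by omega
    subst hi'
    subst hk'
    simp [Rf_zero]
  · have key : ∀ a b : ℕ, a ≤ b → b ≤ N → Tendsto (fun j => Rf (ρ j) (L j)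
        (((pt N b : unitInterval) : ℝ) - (pt N a : unitInterval)))
        atTop (𝓝 |((pt N b : unitInterval) : ℝ) - (pt N a : unitInterval)|) := by
      intro a b hab hb
      rw [pt_val h0 hb, pt_val h0 (hab.trans hb)]
      have e : (b : ℝ) / N - (a : ℝ) / N = ((b - a : ℕ) : ℝ) / N := by
        rw [Nat.cast_sub hab]
        ring
      rw [e, abs_of_nonneg (by positivity)]
      rcases eq_or_lt_of_le hab with h | h
      · subst h
        simp [Rf_zero]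
      · exact hV (b - a) N (by omega) (by omega)
    rcases le_total k i with h | h
    · exact key k i h hi
    · have h2 := key i k h hk
      rw [abs_sub_comm]
      refine h2.congr fun j => ?_
      rw [← Rf_abs (ρ j) _ (((pt N k : unitInterval) : ℝ) - (pt N i : unitInterval)), abs_sub_comm,
        Rf_abs]

theorem torus_char (hBLK : S_BLK) (hCLT : S_CLT) (hFOUR : S_FOUR) {ρ : ℕ → ℝ} {L : ℕ → ℕ}
    (hρ : ∀ j, 0 < ρ j ∧ ρ j < 1) (hρ0 : Tendsto ρ atTop (𝓝 0))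
    (hV : ∀ a b : ℕ, 0 < a → a ≤ b → Tendsto (fun j => Rf (ρ j) (L j) ((a : ℝ) / b)) atTop
      (𝓝 ((a : ℝ) / b))) (N : ℕ) (t : ℕ → ℝ) :
    Tendsto (fun j => ∫ θ, Complex.exp (((∑ i ∈ Finset.range (N + 1),
        t i * Y (cc (ρ j) ((pt N i : unitInterval) : ℝ)) (L j) θ : ℝ) : ℂ) * Complex.I) ∂Th) atTop
        (𝓝 ((exp (-((∑ i ∈ Finset.range (N + 1), ∑ j ∈ Finset.range (N + 1),
      t i * t j * min ((pt N i : unitInterval) : ℝ) ((pt N j : unitInterval) : ℝ)) / 2)) : ℝ) : ℂ)) := by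
  obtain ⟨C, hC, hch⟩ := char_lin hBLK hCLT hFOUR
  obtain ⟨u, hu⟩ : ∃ u : ℕ → ℝ, u = fun i => ((pt N i : unitInterval) : ℝ) := ⟨_, rfl⟩
  have hu01 : ∀ i, 0 ≤ u i ∧ u i ≤ 1 := fun i => by
    rw [hu]
    exact ⟨(pt N i).2.1, (pt N i).2.2⟩
  have hu0 : u 0 = 0 := by
    rw [hu]
    show ((pt N 0 : unitInterval) : ℝ) = 0
    unfold pt
    simp
  have hR : ∀ i ∈ Finset.range (N + 1), ∀ k ∈ Finset.range (N + 1),
      Tendsto (fun j => Rf (ρ j) (L j) (u i - u k)) atTop (𝓝 |u i - u k|) := by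
    intro i hi k hk
    rw [hu]
    exact Rf_lim' hV N (by have := Finset.mem_range.1 hi; omega)
      (by have := Finset.mem_range.1 hk; omega)
  have hR0 : ∀ i ∈ Finset.range (N + 1),
      Tendsto (fun j => Rf (ρ j) (L j) (u i)) atTop (𝓝 (u i)) := by
    intro i hi
    have h1 := hR i hi 0 (Finset.mem_range.2 (by omega))
    rw [hu0] at h1
    simp only [sub_zero] at h1
    rw [abs_of_nonneg (hu01 i).1] at h1
    exact h1
  -- the limit of the variance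
  have hVl : Tendsto (fun j => V (fun n => ∑ i ∈ Finset.range (N + 1), (t i : ℂ) *
      cc (ρ j) (u i) n) (L j)) atTop (𝓝 (∑ i ∈ Finset.range (N + 1),
        ∑ k ∈ Finset.range (N + 1), t i * t k * min (u i) (u k))) := by
    simp_rw [V_lin]
    have e1 : ∑ i ∈ Finset.range (N + 1), ∑ k ∈ Finset.range (N + 1),
        t i * t k * min (u i) (u k) = 1 / 2 * ∑ i ∈ Finset.range (N + 1),
          ∑ k ∈ Finset.range (N + 1), t i * t k * (u i + u k - |u i - u k|) := by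
      rw [Finset.mul_sum]
      refine Finset.sum_congr rfl fun i _ => ?_
      rw [Finset.mul_sum]
      refine Finset.sum_congr rfl fun k _ => ?_
      rw [min_def]
      split_ifs with h
      · rw [abs_of_nonpos (by linarith)]
        ring
      · rw [abs_of_nonneg (by linarith)]
        ring
    rw [e1]
    refine Tendsto.const_mul _ (tendsto_finsetSum _ fun i hi => tendsto_finsetSum _ fun k hk => ?_)
    exact Tendsto.const_mul _ (((hR0 i hi).add (hR0 k hk)).sub (hR i hi k hk))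
  obtain ⟨W, hW⟩ : ∃ W : ℝ, W = ∑ i ∈ Finset.range (N + 1),
        ∑ k ∈ Finset.range (N + 1), t i * t k * min (u i) (u k) := ⟨_, rfl⟩
  rw [← hW] at hVl
  have hG : ((exp (-((∑ i ∈ Finset.range (N + 1), ∑ j ∈ Finset.range (N + 1),
    t i * t j * min ((pt N i : unitInterval) : ℝ) ((pt N j : unitInterval) : ℝ)) / 2)) : ℝ) : ℂ) =
      ((exp (-(W / 2)) : ℝ) : ℂ) := by
    rw [hW, hu]
  rw [hG]
  have hY : Tendsto (fun j => ∫ θ, Complex.exp (((∑ i ∈ Finset.range (N + 1),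
      t i * Y (cc (ρ j) (u i)) (L j) θ : ℝ) : ℂ) * Complex.I) ∂Th) atTop
      (𝓝 ((exp (-(W / 2)) : ℝ) : ℂ)) := by
    have h1 : Tendsto (fun j => ((exp (-(V (fun n => ∑ i ∈ Finset.range (N + 1), (t i : ℂ) *
      cc (ρ j) (u i) n) (L j) / 2)) : ℝ) : ℂ)) atTop (𝓝 ((exp (-(W / 2)) : ℝ) : ℂ)) := by
      refine (Complex.continuous_ofReal.tendsto _).comp ?_
      refine (Real.continuous_exp.tendsto _).comp ?_
      exact (hVl.div_const 2).neg
    have h2 : Tendsto (fun j => C * ((∑ i ∈ Finset.range (N + 1), |t i|) ^ 3 +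
        (∑ i ∈ Finset.range (N + 1), |t i|) ^ 4) * ρ j ^ (1 / 2 : ℝ)) atTop (𝓝 0) := by
      have h3 : Tendsto (fun j => ρ j ^ (1 / 2 : ℝ)) atTop (𝓝 0) := by
        have := hρ0.rpow_const (p := (1 / 2 : ℝ)) (Or.inr (by norm_num))
        rwa [Real.zero_rpow (by norm_num)] at this
      have := h3.const_mul (C * ((∑ i ∈ Finset.range (N + 1), |t i|) ^ 3 +
        (∑ i ∈ Finset.range (N + 1), |t i|) ^ 4))
      rwa [mul_zero] at this
    have h4 : Tendsto (fun j => ∫ θ, Complex.exp (((∑ i ∈ Finset.range (N + 1),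
      t i * Y (cc (ρ j) (u i)) (L j) θ : ℝ) : ℂ) * Complex.I) ∂Th -
        ((exp (-(V (fun n => ∑ i ∈ Finset.range (N + 1), (t i : ℂ) *
      cc (ρ j) (u i) n) (L j) / 2)) : ℝ) : ℂ)) atTop (𝓝 0) := by
      refine squeeze_zero_norm' ?_ h2
      filter_upwards [ev_log hρ hρ0] with j hj
      exact hch (ρ j) (L j) (Finset.range (N + 1)) t u (hρ j).1 (hρ j).2 hj
        fun i _ => hu01 i
    have h5 := h4.add h1
    rw [zero_add] at h5
    refine h5.congr fun j => ?_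
    ring
  rw [hu] at hY
  exact hY

section

variable {c₁ c₂ K s : ℝ} {T ρ : ℕ → ℝ} {L : ℕ → ℕ} {μ : ℕ → Measure ℝ}

theorem Seq.conv (S : Seq c₁ c₂ K s T ρ (fun j => L j ^ 2) μ) (hUP : S_UP) (hBLK : S_BLK)
    (hCLT : S_CLT) (hFOUR : S_FOUR) (hTI : S_TIGHT) (hMOM : S_MOM) (hMB : S_MB) (hVARQ : S_VARQ)
    (hRM : S_RM) {M : ℕ → ℕ} (hM : Tendsto M atTop atTop)
    (hMT : ∀ δ : ℝ, 0 < δ → ∀ᶠ j in atTop, (M j : ℝ) ≤ T j ^ δ)
    [MeasurableSpace C(unitInterval, ℝ)] [BorelSpace C(unitInterval, ℝ)]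
    {Ω : Type} [MeasurableSpace Ω] (P : Measure Ω) (B : ℝ≥0 → Ω → ℝ) (hB : IsBrownianReal B P)
    (F : C(unitInterval, ℝ) →ᵇ ℝ) :
    Tendsto (fun j => ∫ x, F (pathU (ρ j) (M j) (L j) (T j * x)) ∂μ j) atTop
      (𝓝 (∫ ω, F (bpath B ω) ∂P)) := by
  have hP : IsProbabilityMeasure P := hB.isGaussianProcess.isProbabilityMeasure
  have hμ : ∀ j, IsProbabilityMeasure (μ j) := fun j => (S.adm j).prob
  have hs := S.s0
  obtain ⟨K4, hK4, hfour⟩ := four_incr hUP hBLK hFOUR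
  have evM : ∀ᶠ j in atTop, 0 < M j := hM.eventually (eventually_gt_atTop 0)
  have mG : ∀ (c : ℕ → ℂ) (N : ℕ) (T : ℝ), Measurable fun x => G c N (T * x) := fun c N T =>
    (G_cont c N).measurable.comp (measurable_const_mul T)
  refine donsker_abs (ν := μ) (X := fun j x => pathU (ρ j) (M j) (L j) (T j * x))
    (Z := bpath B) (P := P) (fun j => (hRM (ρ j) (T j) (M j) (L j)).2) (bpath_aem hB) ?_ ?_ F
  · -- the characteristic functions
    intro N t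
    rw [bchar hB N t]
    have hY := torus_char hBLK hCLT hFOUR S.r01 S.r0
      (fun a b ha hab => VAR_lim hVARQ S.r01 S.r0 S.Nr a b ha hab) N t
    obtain ⟨A, hA⟩ : ∃ A, A = ∑ i ∈ Finset.range (N + 1), |t i| := ⟨_, rfl⟩
    have hA0 : 0 ≤ A := by rw [hA]; exact Finset.sum_nonneg fun _ _ => abs_nonneg _
    -- from the torus to the line
    have h1 : Tendsto (fun j => (∫ x, Complex.exp (((∑ i ∈ Finset.range (N + 1), t i *
        G (cc (ρ j) ((pt N i : unitInterval) : ℝ)) (L j ^ 2) (T j * x) : ℝ) : ℂ) * Complex.I)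
          ∂μ j) - ∫ θ, Complex.exp (((∑ i ∈ Finset.range (N + 1), t i *
        Y (cc (ρ j) ((pt N i : unitInterval) : ℝ)) (L j ^ 2) θ : ℝ) : ℂ) * Complex.I) ∂Th) atTop
        (𝓝 0) := by
      rw [Metric.tendsto_atTop]
      intro η hη
      obtain ⟨j0, hj0⟩ := eventually_atTop.1 (S.chr hMOM hUP hMB hFOUR hA0 (half_pos hη))
      refine ⟨j0, fun j hj => ?_⟩
      have h2 := hj0 j hj (fun n => ∑ i ∈ Finset.range (N + 1), (t i : ℂ) *
        cc (ρ j) ((pt N i : unitInterval) : ℝ) n) (by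
          rw [hA]
          exact dom_lin (S.r01 j).1 (Finset.range (N + 1)) t
            (fun i => ((pt N i : unitInterval) : ℝ)) fun i _ => ⟨(pt N i).2.1, (pt N i).2.2⟩)
      simp_rw [G_lin, Y_lin] at h2
      rw [dist_zero_right]
      linarith
    -- from the polygon to the points of the grid
    have h2 : Tendsto (fun j => (∫ x, Complex.exp (((∑ i ∈ Finset.range (N + 1), t i *
        pathU (ρ j) (M j) (L j) (T j * x) (pt N i) : ℝ) : ℂ) * Complex.I) ∂μ j) -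
        ∫ x, Complex.exp (((∑ i ∈ Finset.range (N + 1), t i *
        G (cc (ρ j) ((pt N i : unitInterval) : ℝ)) (L j ^ 2) (T j * x) : ℝ) : ℂ) * Complex.I)
          ∂μ j) atTop (𝓝 0) := by
      rw [Metric.tendsto_atTop]
      intro ε hε
      obtain ⟨δ, hδ, hδe⟩ : ∃ δ : ℝ, 0 < δ ∧ A * (3 * δ) < ε := by
        refine ⟨ε / (4 * (A + 1)), by positivity, ?_⟩
        rw [show A * (3 * (ε / (4 * (A + 1)))) = ε * (3 * A / (4 * (A + 1))) by ring]
        have : 3 * A / (4 * (A + 1)) < 1 := by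
          rw [div_lt_one (by positivity)]
          linarith
        nlinarith
      have evS : ∀ᶠ j in atTop,
          2 * (K4 * (1 / (M j : ℝ)) ^ (3 / 2 : ℝ) + T j ^ (-(s / 20))) / δ ^ 3 < δ := by
        have h1 : Tendsto (fun j => (1 / (M j : ℝ))) atTop (𝓝 0) := by
          have := tendsto_one_div_atTop_nhds_zero_nat (𝕜 := ℝ)
          exact this.comp hM
        have h2 := h1.rpow_const (p := (3 / 2 : ℝ)) (Or.inr (by norm_num))
        rw [Real.zero_rpow (by norm_num)] at h2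
        have h4 : Tendsto (fun j => T j ^ (-(s / 20))) atTop (𝓝 0) :=
          (tendsto_rpow_neg_atTop (by linarith)).comp S.Tl
        have h3 := (((h2.const_mul K4).add h4).const_mul 2).div_const (δ ^ 3)
        rw [mul_zero, add_zero, mul_zero, zero_div] at h3
        exact h3.eventually (gt_mem_nhds hδ)
      obtain ⟨j0, hj0⟩ := eventually_atTop.1 (evM.and (evS.and (S.four hMOM hUP hfour)))
      refine ⟨j0, fun j hj => ?_⟩
      obtain ⟨g2, g3, g4⟩ := hj0 j hj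
      have hMj : (0 : ℝ) < M j := by exact_mod_cast g2
      have gn := fun i : ℕ => near' (P := μ j) (S := fun u x => G (cc (ρ j) u) (L j ^ 2) (T j * x))
        (fun u => mG _ _ _) (Bd := fun u => ∑ n ∈ Finset.Icc 1 (L j ^ 2), ‖cc (ρ j) u n‖)
        (fun u x => G_bound _ _ _) g2 (e := K4 * (1 / (M j : ℝ)) ^ (3 / 2 : ℝ) + T j ^ (-(s / 20)))
        (by
          intro u v hu huv hv hvM
          refine (g4 u v hu huv hv).trans ?_
          have : (v - u) ^ (3 / 2 : ℝ) ≤ (1 / (M j : ℝ)) ^ (3 / 2 : ℝ) :=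
            Real.rpow_le_rpow (by linarith) (by linarith) (by norm_num)
          have := mul_le_mul_of_nonneg_left this hK4.le
          linarith) (pt N i) hδ
      have h5 := expdiff (P := μ j) (Finset.range (N + 1)) t
        (f := fun i x => polygon (M j) (fun i => G (cc (ρ j) ((i : ℝ) / M j)) (L j ^ 2) (T j * x))
          (pt N i))
        (g := fun i x => G (cc (ρ j) ((pt N i : unitInterval) : ℝ)) (L j ^ 2) (T j * x))
        (fun i => (gn i).1) (fun i => mG _ _ _) (fun i => (gn i).2.1)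
      rw [dist_zero_right]
      simp_rw [pathU_eq]
      refine lt_of_le_of_lt h5 ?_
      have h7 : ∀ i ∈ Finset.range (N + 1), |t i| * ∫ x, |polygon (M j) (fun i =>
          G (cc (ρ j) ((i : ℝ) / M j)) (L j ^ 2) (T j * x)) (pt N i) -
          G (cc (ρ j) ((pt N i : unitInterval) : ℝ)) (L j ^ 2) (T j * x)| ∂μ j ≤
          |t i| * (3 * δ) := by
        intro i _
        apply mul_le_mul_of_nonneg_left _ (abs_nonneg _)
        refine ((gn i).2.2).trans ?_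
        linarith
      refine lt_of_le_of_lt (Finset.sum_le_sum h7) ?_
      rw [← Finset.sum_mul, ← hA]
      exact hδe
    have h8 := (h2.add h1).add hY
    rw [zero_add, zero_add] at h8
    refine h8.congr fun j => ?_
    ring
  · -- tightness
    intro ε hε η hη
    obtain ⟨N0, hN0⟩ := hTI (K4 + 1) ε η (by linarith) hε hη
    refine ⟨N0, fun N hN => ?_⟩
    obtain ⟨M0, hM0⟩ := hN0 N hN
    have evM0 : ∀ᶠ j in atTop, M0 ≤ M j := hM.eventually (eventually_ge_atTop M0)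
    filter_upwards [evM, evM0, S.four hMOM hUP hfour, hMT (s / 30) (by linarith)] with j g2 g3 g4 g5
    have hM' : (0 : ℝ) < M j := by exact_mod_cast g2
    have hT1 := S.T1 j
    have hT0 : 0 < T j := by linarith
    have ht : T j ^ (-(s / 20)) ≤ (1 / (M j : ℝ)) ^ (3 / 2 : ℝ) := by
      rw [one_div, Real.inv_rpow hM'.le, Real.rpow_neg hT0.le]
      apply inv_anti₀ (by positivity)
      calc (M j : ℝ) ^ (3 / 2 : ℝ) ≤ (T j ^ (s / 30)) ^ (3 / 2 : ℝ) :=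
            Real.rpow_le_rpow hM'.le g5 (by norm_num)
        _ = T j ^ (s / 20) := by
            rw [← Real.rpow_mul hT0.le]
            congr 1
            ring
    have h := hM0 (M j) g3 ℝ (μ j) (fun i x => G (cc (ρ j) ((i : ℝ) / M j)) (L j ^ 2) (T j * x))
      (fun i => mG _ _ _) (fun i => ⟨_, fun x => G_bound _ _ _⟩) ?_
    · simp_rw [pathU_eq]
      exact h
    · intro a b hab hb
      rcases eq_or_lt_of_le hab with rfl | hlt
      · simp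
      have h1 : (a : ℝ) ≤ b := by exact_mod_cast hab
      have h2 : (b : ℝ) ≤ M j := by exact_mod_cast hb
      have h1' : (a : ℝ) + 1 ≤ b := by exact_mod_cast hlt
      have h3 := g4 ((a : ℝ) / M j) ((b : ℝ) / M j) (by positivity) (by gcongr)
        (by rw [div_le_one hM']; exact h2)
      rw [← sub_div] at h3
      refine h3.trans ?_
      have h6 : (1 / (M j : ℝ)) ^ (3 / 2 : ℝ) ≤ (((b : ℝ) - a) / M j) ^ (3 / 2 : ℝ) := by
        apply Real.rpow_le_rpow (by positivity) _ (by norm_num)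
        gcongr
        linarith
      have e : (K4 + 1) * (((b : ℝ) - a) / M j) ^ (3 / 2 : ℝ) =
        K4 * (((b : ℝ) - a) / M j) ^ (3 / 2 : ℝ) + (((b : ℝ) - a) / M j) ^ (3 / 2 : ℝ) := by ring
      rw [e]
      linarith

end

theorem seq (hUP : S_UP) (hBLK : S_BLK) (hCLT : S_CLT) (hFOUR : S_FOUR) (hTI : S_TIGHT)
    (hMOM : S_MOM) (hMB : S_MB) (hVARQ : S_VARQ) (hAPX : S_APX) (hSLU : S_SLU) (hRM : S_RM) :
    S_SEQ := by
  intro c₁ c₂ K s hc₁ hs T ρ M μ hadm hT1 hT hρ hρ0 hM hδ Ω _ P B hB F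
  have hP : IsProbabilityMeasure P := hB.isGaussianProcess.isProbabilityMeasure
  let _ : MeasurableSpace C(unitInterval, ℝ) := borel _
  have _ : BorelSpace C(unitInterval, ℝ) := ⟨rfl⟩
  obtain ⟨C, τ, T₀, hC, hτ, hapx⟩ := hAPX c₁ c₂ K s hc₁ hs
  obtain ⟨b, hb2, hbτ⟩ : ∃ b : ℕ, 2 ≤ b ∧ 3 ≤ b * τ := by
    refine ⟨⌈3 / τ⌉₊ + 2, by omega, ?_⟩
    have h1 := Nat.le_ceil (3 / τ)
    rw [div_le_iff₀ hτ] at h1
    push_cast
    nlinarith
  obtain ⟨m, hm⟩ : ∃ m : ℕ → ℝ, m = fun j => max (1 / ρ j) (M j) := ⟨_, rfl⟩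
  have hm1 : ∀ j, 1 / ρ j ≤ m j := fun j => by rw [hm]; exact le_max_left _ _
  have hm2 : ∀ j, (M j : ℝ) ≤ m j := fun j => by rw [hm]; exact le_max_right _ _
  have hm0 : ∀ j, 1 ≤ m j := fun j => by
    refine le_trans ?_ (hm1 j)
    rw [le_div_iff₀ (hρ j).1]
    linarith [(hρ j).2]
  obtain ⟨L, hL⟩ : ∃ L : ℕ → ℕ, L = fun j => ⌈m j ^ b⌉₊ := ⟨_, rfl⟩
  have hL1 : ∀ j, m j ^ b ≤ L j := fun j => by rw [hL]; exact Nat.le_ceil _
  have hL2 : ∀ j, (L j : ℝ) ≤ m j ^ b + 1 := fun j => by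
    rw [hL]
    exact (Nat.ceil_lt_add_one (by have := hm0 j; positivity)).le
  have hLone : ∀ j, 1 ≤ L j := fun j => by
    have h1 : (1 : ℝ) ≤ L j := (one_le_pow₀ (hm0 j)).trans (hL1 j)
    exact_mod_cast h1
  have hmT : ∀ δ : ℝ, 0 < δ → ∀ᶠ j in atTop, m j ≤ T j ^ δ := by
    intro δ hδ0
    filter_upwards [hδ δ hδ0] with j hj
    rw [hm]
    apply max_le _ hj.2
    have hT0 : 0 < T j := by linarith [hT1 j]
    rw [one_div]
    have h1 := inv_anti₀ (by positivity) hj.1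
    rwa [Real.rpow_neg hT0.le, inv_inv] at h1
  have hNT : ∀ δ : ℝ, 0 < δ → ∀ᶠ j in atTop, ((L j ^ 2 : ℕ) : ℝ) ≤ T j ^ δ := by
    intro δ hδ0
    have hbp : (0 : ℝ) < b := by exact_mod_cast (by omega : 0 < b)
    filter_upwards [hmT (δ / (4 * b)) (by positivity), ev_const hT 4 (half_pos hδ0)] with j g1 g2
    have hT0 : 0 < T j := by linarith [hT1 j]
    have h1 : m j ^ b ≤ T j ^ (δ / 4) := by
      calc m j ^ b ≤ (T j ^ (δ / (4 * b))) ^ b :=
            pow_le_pow_left₀ (by linarith [hm0 j]) g1 b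
        _ = T j ^ (δ / 4) := by
            rw [← Real.rpow_natCast, ← Real.rpow_mul hT0.le]
            congr 1
            field_simp
    have h2 : (1 : ℝ) ≤ T j ^ (δ / 4) := (one_le_pow₀ (hm0 j)).trans h1
    have h3 : (L j : ℝ) ≤ 2 * T j ^ (δ / 4) := by linarith [hL2 j]
    push_cast
    calc (L j : ℝ) ^ 2 ≤ (2 * T j ^ (δ / 4)) ^ 2 := pow_le_pow_left₀ (Nat.cast_nonneg _) h3 2
      _ = 4 * (T j ^ (δ / 4) * T j ^ (δ / 4)) := by ring
      _ = 4 * T j ^ (δ / 2) := by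
          rw [← Real.rpow_add hT0]
          congr 2
          ring
      _ ≤ T j ^ (δ / 2) * T j ^ (δ / 2) := by gcongr
      _ = T j ^ δ := by
          rw [← Real.rpow_add hT0]
          congr 1
          ring
  have S : Seq c₁ c₂ K s T ρ (fun j => L j ^ 2) μ := by
    refine ⟨hadm, hs, hT1, hT, hρ, hρ0, fun j => Nat.one_le_pow _ _ (hLone j), hNT, ?_⟩
    refine Eventually.of_forall fun j => ?_
    have h1 : (1 / ρ j) ^ 2 ≤ L j := by
      have h2 : (1 / ρ j) ^ 2 ≤ m j ^ 2 := pow_le_pow_left₀ (by have := (hρ j).1; positivity) (hm1 j) 2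
      exact h2.trans ((pow_le_pow_right₀ (hm0 j) hb2).trans (hL1 j))
    have h3 : ((1 / ρ j) ^ 2) ^ 2 ≤ (L j : ℝ) ^ 2 := pow_le_pow_left₀ (by positivity) h1 2
    have h4 : ρ j ^ (-4 : ℝ) = ((1 / ρ j) ^ 2) ^ 2 := by
      rw [Real.rpow_neg (hρ j).1.le, one_div, ← pow_mul, inv_pow]
      congr 1
      rw [← Real.rpow_natCast]
      norm_num
    rw [h4]
    push_cast
    exact h3
  refine hSLU μ (fun j x => pathR (ρ j) (M j) (T j * x))
    (fun j x => pathU (ρ j) (M j) (L j) (T j * x)) P (bpath B) (fun j => (hadm j).prob)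
    (fun j => (hRM (ρ j) (T j) (M j) (L j)).1) (fun j => (hRM (ρ j) (T j) (M j) (L j)).2)
    (bpath_aem hB) ?_ ?_ F
  · intro F'
    exact S.conv hUP hBLK hCLT hFOUR hTI hMOM hMB hVARQ hRM hM
      (fun δ h => (hδ δ h).mono fun j hj => hj.2) P B hB F'
  · intro ε hε
    have hlim : Tendsto (fun j => 4 * C / ε ^ 2 * ρ j) atTop (𝓝 0) := by
      have := hρ0.const_mul (4 * C / ε ^ 2)
      rwa [mul_zero] at this
    refine squeeze_zero' (Eventually.of_forall fun j => measureReal_nonneg) ?_ hlim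
    filter_upwards [ev_log hρ hρ0, hT.eventually (eventually_ge_atTop T₀), hNT τ hτ,
      hM.eventually (eventually_ge_atTop 1)] with j g1 g2 g3 g4
    have hr := (hρ j).1
    have hLτ : (L j : ℝ) ≤ T j ^ τ := by
      refine le_trans ?_ g3
      have : L j ≤ L j ^ 2 := by
        have := hLone j
        nlinarith
      exact_mod_cast this
    refine (hapx (T j) (ρ j) (M j) (L j) g2 hr (hρ j).2 g4 (hLone j) hLτ (μ j) (hadm j) ε hε).trans ?_
    have hmp : 0 < m j := by linarith [hm0 j]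
    have k1 : (L j : ℝ) ^ (-τ) ≤ m j ^ (-3 : ℝ) := by
      calc (L j : ℝ) ^ (-τ) ≤ (m j ^ b) ^ (-τ) :=
            Real.rpow_le_rpow_of_nonpos (by positivity) (hL1 j) (by linarith)
        _ = m j ^ (-(b * τ)) := by
            rw [← Real.rpow_natCast, ← Real.rpow_mul hmp.le]
            congr 1
            ring
        _ ≤ m j ^ (-3 : ℝ) := Real.rpow_le_rpow_of_exponent_le (hm0 j) (by linarith)
    have k2 : (M j : ℝ) + 1 ≤ 2 * m j := by linarith [hm0 j, hm2 j]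
    have k3 : 1 / 2 * ρ j ≤ sg (ρ j) ^ 2 := by
      rw [sg_sq hr (hρ j).2]
      have hp : 1 / 2 ≤ 8 / π ^ 2 := by
        rw [div_le_div_iff₀ (by norm_num) (by positivity)]
        have := Real.pi_le_four
        have := Real.pi_pos
        nlinarith
      have hl : 1 ≤ log (1 / ρ j) ^ 3 := one_le_pow₀ g1
      have hl2 : ρ j ≤ ρ j * log (1 / ρ j) ^ 3 := by nlinarith
      exact mul_le_mul hp hl2 hr.le (by positivity)
    have k4 : m j ^ (-3 : ℝ) * m j = m j ^ (-2 : ℝ) := by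
      nth_rewrite 2 [← Real.rpow_one (m j)]
      rw [← Real.rpow_add hmp]
      norm_num
    have k5 : m j ^ (-2 : ℝ) ≤ ρ j ^ 2 := by
      have h1 : (1 / ρ j) ^ (2 : ℝ) ≤ m j ^ (2 : ℝ) :=
        Real.rpow_le_rpow (by positivity) (hm1 j) (by norm_num)
      rw [Real.rpow_neg hmp.le]
      calc (m j ^ (2 : ℝ))⁻¹ ≤ ((1 / ρ j) ^ (2 : ℝ))⁻¹ := inv_anti₀ (by positivity) h1
        _ = ρ j ^ 2 := by
            rw [one_div, Real.inv_rpow hr.le, inv_inv, ← Real.rpow_natCast]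
            norm_num
    calc C * (M j + 1) * (L j : ℝ) ^ (-τ) / (ε ^ 2 * sg (ρ j) ^ 2)
        ≤ C * (2 * m j) * m j ^ (-3 : ℝ) / (ε ^ 2 * (1 / 2 * ρ j)) := by gcongr
      _ = 4 * C / ε ^ 2 * (m j ^ (-3 : ℝ) * m j) / ρ j := by
          field_simp
          ring
      _ = 4 * C / ε ^ 2 * m j ^ (-2 : ℝ) / ρ j := by rw [k4]
      _ ≤ 4 * C / ε ^ 2 * ρ j ^ 2 / ρ j := by gcongr
      _ = 4 * C / ε ^ 2 * ρ j := by
          field_simp

end Pool.Agent.U908.LD.SQ56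

namespace Pool.Agent.U56.LD.SEQ

open Pool.Agent.U251.LD

theorem t_SEQ : S_UP → S_BLK → Pool.Agent.U581.LB.S_CLT → Pool.Agent.U581.LB.S_FOUR →
    Pool.Agent.U581.LB.S_TIGHT → Pool.Agent.U581.LB.S_MOM → S_MB → S_VARQ → S_APX →
    Pool.Agent.U581.LB.S_SLU → S_RM → S_SEQ :=
  Pool.Agent.U908.LD.SQ56.seq

end Pool.Agent.U56.LD.SEQ
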